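import Pool.Agent.H223.EM.Defs
import Pool.Agent.H402R2.T4bA

set_option autoImplicit false

/-!
Eighth moment lower bound, part TW, task T7a: the kernel integral does not depend on the line.
-/

namespace Pool.Agent.H75R2.EM

open Finset Filter Topology MeasureTheory Complex
open Pool.Agent.H306R2 Pool.Agent.H306R2.SM Pool.Agent.H223.EM

/-- contour shift without poles for functions with exponential decay -/
theorem shift0 (F : ℂ → ℂ) (a b C δ : ℝ) (hab : a ≤ b) (hδ : 0 < δ)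
    (hF : ∀ s : ℂ, a ≤ s.re → s.re ≤ b → DifferentiableAt ℂ F s)
    (hC : ∀ s : ℂ, a ≤ s.re → s.re ≤ b → ‖F s‖ ≤ C * Real.exp (-(δ * |s.im|))) :
    ∫ t : ℝ, F ((a : ℂ) + t * I) = ∫ t : ℝ, F ((b : ℂ) + t * I) := by
  have hint : ∀ c : ℝ, a ≤ c → c ≤ b → Integrable (fun t : ℝ => F ((c : ℂ) + t * I)) := by
    intro c h1 h2
    refine Integrable.mono' ((Pool.Agent.H402R2.T4b.int_exp_abs hδ).const_mul C) ?_ ?_
    · apply Continuous.aestronglyMeasurable
      rw [continuous_iff_continuousAt]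
      intro y
      have h3 : ContinuousAt F ((c : ℂ) + y * I) :=
        (hF _ (by simpa using h1) (by simpa using h2)).continuousAt
      exact ContinuousAt.comp (f := fun y : ℝ => (c : ℂ) + y * I) h3 (by fun_prop)
    · refine Eventually.of_forall fun y => ?_
      have := hC ((c : ℂ) + y * I) (by simpa using h1) (by simpa using h2)
      simpa using this
  have hrect : ∀ R : ℝ, 0 < R →
      (∫ x : ℝ in a..b, F (x + ((-R : ℝ) : ℂ) * I)) - (∫ x : ℝ in a..b, F (x + (R : ℂ) * I)) +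
        I * (∫ y : ℝ in (-R)..R, F ((b : ℂ) + y * I)) -
        I * (∫ y : ℝ in (-R)..R, F ((a : ℂ) + y * I)) = 0 := by
    intro R hR
    have h1 := Complex.integral_boundary_rect_eq_zero_of_differentiableOn F ⟨a, -R⟩ ⟨b, R⟩ ?_
    · simpa only [smul_eq_mul] using h1
    · intro s hs
      simp only at hs
      rw [Complex.mem_reProdIm] at hs
      have h2 := hs.1
      rw [Set.uIcc_of_le hab] at h2
      exact (hF s h2.1 h2.2).differentiableWithinAt
  have hhor : ∀ ε : ℝ, |ε| = 1 →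
      Tendsto (fun R : ℝ => ∫ x : ℝ in a..b, F (x + ((ε * R : ℝ) : ℂ) * I)) atTop (𝓝 0) := by
    intro ε hε
    have h0 : Tendsto (fun R : ℝ => C * Real.exp (-(δ * R)) * |b - a|) atTop (𝓝 0) := by
      have h1 : Tendsto (fun R : ℝ => Real.exp (-(δ * R))) atTop (𝓝 0) :=
        Real.tendsto_exp_neg_atTop_nhds_zero.comp (tendsto_id.const_mul_atTop hδ)
      have h2 := (h1.const_mul C).mul_const |b - a|
      simpa using h2
    refine squeeze_zero_norm' ?_ h0
    filter_upwards [eventually_gt_atTop (0 : ℝ)] with R hR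
    refine intervalIntegral.norm_integral_le_of_norm_le_const fun x hx => ?_
    rw [Set.uIoc_of_le hab] at hx
    have := hC ((x : ℂ) + ((ε * R : ℝ) : ℂ) * I) (by simpa using hx.1.le) (by simpa using hx.2)
    have e : |((x : ℂ) + ((ε * R : ℝ) : ℂ) * I).im| = R := by
      have e1 : ((x : ℂ) + ((ε * R : ℝ) : ℂ) * I).im = ε * R := by simp
      rw [e1, abs_mul, hε, one_mul, abs_of_pos hR]
    rw [e] at this
    exact this
  have hh1 := hhor (-1) (by simp)
  have hh2 := hhor 1 (by simp)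
  have hv1 : Tendsto (fun R : ℝ => ∫ y : ℝ in (-R)..R, F ((b : ℂ) + y * I)) atTop
      (𝓝 (∫ y : ℝ, F ((b : ℂ) + y * I))) :=
    intervalIntegral_tendsto_integral (hint b hab le_rfl) tendsto_neg_atTop_atBot tendsto_id
  have hv2 : Tendsto (fun R : ℝ => ∫ y : ℝ in (-R)..R, F ((a : ℂ) + y * I)) atTop
      (𝓝 (∫ y : ℝ, F ((a : ℂ) + y * I))) :=
    intervalIntegral_tendsto_integral (hint a le_rfl hab) tendsto_neg_atTop_atBot tendsto_id
  have hall := ((hh1.sub hh2).add (hv1.const_mul I)).sub (hv2.const_mul I)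
  have hzero : Tendsto (fun _ : ℝ => (0 : ℂ)) atTop (𝓝 (0 - 0 + I * (∫ y : ℝ, F ((b : ℂ) + y * I)) -
      I * ∫ y : ℝ, F ((a : ℂ) + y * I))) := by
    refine hall.congr' ?_
    filter_upwards [eventually_gt_atTop (0 : ℝ)] with R hR
    have := hrect R hR
    rw [← this]
    simp only [neg_one_mul, one_mul]
  have h2 := tendsto_nhds_unique hzero tendsto_const_nhds
  have h3 : I * ((∫ y : ℝ, F ((b : ℂ) + y * I)) - ∫ y : ℝ, F ((a : ℂ) + y * I)) = 0 := by
    rw [← h2]; ring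
  rcases mul_eq_zero.mp h3 with h4 | h4
  · exact absurd h4 Complex.I_ne_zero
  · exact (sub_eq_zero.mp h4).symm

/-- uniform exponential decay of the Gamma function in vertical strips -/
theorem Gamma_strip (a b θ : ℝ) (ha : 0 < a) (h0 : 0 ≤ θ) (h1 : θ < Real.pi / 2) :
    ∃ M : ℝ, 0 ≤ M ∧ ∀ s : ℂ, a ≤ s.re → s.re ≤ b → ‖Complex.Gamma s‖ ≤ M * Real.exp (-(θ * |s.im|)) := by
  have hc : 0 < Real.cos θ := Real.cos_pos_of_mem_Ioo ⟨by linarith [Real.pi_pos], h1⟩
  have hcont : ContinuousOn (fun σ : ℝ => Real.Gamma σ / (Real.cos θ) ^ σ) (Set.Icc a b) := by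
    intro σ hσ
    have hσ0 : 0 < σ := lt_of_lt_of_le ha hσ.1
    refine ContinuousAt.continuousWithinAt ?_
    refine ContinuousAt.div ?_ ?_ (Real.rpow_pos_of_pos hc _).ne'
    · refine (Real.differentiableAt_Gamma fun m => ?_).continuousAt
      have : (0 : ℝ) ≤ m := Nat.cast_nonneg m
      linarith
    · exact (Real.continuousAt_const_rpow hc.ne')
  obtain ⟨M, hM⟩ := isCompact_Icc.exists_bound_of_continuousOn hcont
  refine ⟨|M|, abs_nonneg _, fun s h2 h3 => ?_⟩
  have hs0 : 0 < s.re := lt_of_lt_of_le ha h2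
  have h4 := Pool.Agent.Helper242.KK.norm_Gamma_le_of_angle (σ := s.re) (v := s.im) hs0 h0 h1
  rw [Complex.re_add_im] at h4
  refine h4.trans ?_
  have h5 := hM s.re ⟨h2, h3⟩
  have h6 : Real.exp (-θ * |s.im|) * Real.Gamma s.re / (Real.cos θ) ^ s.re =
      (Real.Gamma s.re / (Real.cos θ) ^ s.re) * Real.exp (-(θ * |s.im|)) := by
    rw [neg_mul]
    ring
  rw [h6]
  exact mul_le_mul_of_nonneg_right (((le_abs_self _).trans h5).trans (le_abs_self _)) (Real.exp_pos _).le

theorem norm_cs_le (i : Fin 2) (s : ℂ) : ‖cs i s‖ ≤ Real.exp (Real.pi * |s.im|) := by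
  have hpi := Real.pi_pos
  unfold cs
  split_ifs
  · rw [norm_one]
    exact Real.one_le_exp (by positivity)
  · rw [norm_neg, Complex.cos, norm_div, Complex.norm_ofNat, div_le_iff₀ (by norm_num)]
    have h1 : ∀ z : ℂ, ‖Complex.exp z‖ ≤ Real.exp |z.re| := by
      intro z
      rw [Complex.norm_exp]
      exact Real.exp_le_exp.2 (le_abs_self _)
    have h2 := h1 (((Real.pi : ℂ) * s) * I)
    have h3 := h1 (-((Real.pi : ℂ) * s) * I)
    have e2 : |(((Real.pi : ℂ) * s) * I).re| = Real.pi * |s.im| := by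
      have : (((Real.pi : ℂ) * s) * I).re = -(Real.pi * s.im) := by simp
      rw [this, abs_neg, abs_mul, abs_of_pos hpi]
    have e3 : |(-((Real.pi : ℂ) * s) * I).re| = Real.pi * |s.im| := by
      have : (-((Real.pi : ℂ) * s) * I).re = Real.pi * s.im := by simp
      rw [this, abs_mul, abs_of_pos hpi]
    rw [e2] at h2
    rw [e3] at h3
    calc ‖Complex.exp (((Real.pi : ℂ) * s) * I) + Complex.exp (-((Real.pi : ℂ) * s) * I)‖ ≤ _ :=
          norm_add_le _ _
      _ ≤ Real.exp (Real.pi * |s.im|) + Real.exp (Real.pi * |s.im|) := add_le_add h2 h3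
      _ = _ := by ring

theorem kap_strip (i : Fin 2) (k : ℕ) (a b x : ℝ) (ha : -(k : ℝ) < a) (hb : b < 1) (hx : 0 < x) :
    ∃ C : ℝ, ∀ s : ℂ, a ≤ s.re → s.re ≤ b →
      ‖kap i k s * (x : ℂ) ^ s‖ ≤ C * Real.exp (-(1 / 2 * |s.im|)) := by
  have hpi := Real.pi_gt_d2
  have hpi2 := Real.pi_lt_d2
  obtain ⟨M1, hM1, h1⟩ := Gamma_strip (a + k) (b + k) 1 (by linarith) zero_le_one (by linarith)
  obtain ⟨M2, hM2, h2⟩ := Gamma_strip (1 - b) (1 - a) (3 / 2) (by linarith) (by norm_num)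
    (by linarith)
  have hcont : ContinuousOn (fun σ : ℝ => x ^ σ) (Set.Icc a b) :=
    (Real.continuous_const_rpow hx.ne').continuousOn
  obtain ⟨M3, hM3⟩ := isCompact_Icc.exists_bound_of_continuousOn hcont
  refine ⟨M1 * M2 ^ 2 * |M3|, fun s h3 h4 => ?_⟩
  have h5 := h1 (s + k) (by simpa using h3) (by simpa using h4)
  have e0 : (1 - s).re = 1 - s.re := by simp
  have h6 := h2 (1 - s) (by rw [e0]; linarith) (by rw [e0]; linarith)
  have h7 := norm_cs_le i s
  have e1 : (s + (k : ℂ)).im = s.im := by simp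
  have e2 : (1 - s).im = -s.im := by simp
  rw [e1] at h5
  rw [e2, abs_neg] at h6
  have h8 : ‖(x : ℂ) ^ s‖ ≤ |M3| := by
    rw [Complex.norm_cpow_eq_rpow_re_of_pos hx]
    exact ((le_abs_self _).trans (hM3 s.re ⟨h3, h4⟩)).trans (le_abs_self _)
  unfold kap
  rw [norm_mul, norm_mul, norm_mul, norm_pow]
  have hexp : Real.exp (-(1 * |s.im|)) * Real.exp (-(3 / 2 * |s.im|)) ^ 2 *
      Real.exp (Real.pi * |s.im|) ≤ Real.exp (-(1 / 2 * |s.im|)) := by
    rw [← Real.exp_nat_mul, ← Real.exp_add, ← Real.exp_add]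
    refine Real.exp_le_exp.2 ?_
    have := abs_nonneg s.im
    push_cast
    nlinarith
  calc ‖Complex.Gamma (s + k)‖ * ‖Complex.Gamma (1 - s)‖ ^ 2 * ‖cs i s‖ * ‖(x : ℂ) ^ s‖ ≤
        (M1 * Real.exp (-(1 * |s.im|))) * (M2 * Real.exp (-(3 / 2 * |s.im|))) ^ 2 *
          Real.exp (Real.pi * |s.im|) * |M3| := by gcongr
    _ = (M1 * M2 ^ 2 * |M3|) * (Real.exp (-(1 * |s.im|)) * Real.exp (-(3 / 2 * |s.im|)) ^ 2 *
          Real.exp (Real.pi * |s.im|)) := by ring
    _ ≤ (M1 * M2 ^ 2 * |M3|) * Real.exp (-(1 / 2 * |s.im|)) :=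
        mul_le_mul_of_nonneg_left hexp (by positivity)

theorem kap_diff (i : Fin 2) (k : ℕ) (x : ℝ) (hx : 0 < x) (s : ℂ) (h1 : -(k : ℝ) < s.re)
    (h2 : s.re < 1) : DifferentiableAt ℂ (fun s : ℂ => kap i k s * (x : ℂ) ^ s) s := by
  have hxc : (x : ℂ) ≠ 0 := by exact_mod_cast hx.ne'
  have d1 : DifferentiableAt ℂ (fun s : ℂ => Complex.Gamma (s + k)) s := by
    have h3 : DifferentiableAt ℂ Complex.Gamma (s + k) := by
      apply Complex.differentiableAt_Gamma
      intro m hm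
      have h4 : (s + (k : ℂ)).re = (-(m : ℂ)).re := by rw [hm]
      have h5 : (s + (k : ℂ)).re = s.re + k := by simp
      have h6 : (-(m : ℂ)).re = -(m : ℝ) := by simp
      rw [h5, h6] at h4
      have h7 : (0 : ℝ) ≤ m := Nat.cast_nonneg m
      linarith
    exact h3.comp s (by fun_prop)
  have d2 : DifferentiableAt ℂ (fun s : ℂ => Complex.Gamma (1 - s)) s := by
    have h3 : DifferentiableAt ℂ Complex.Gamma (1 - s) := by
      apply Complex.differentiableAt_Gamma
      intro m hm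
      have h4 : (1 - s).re = (-(m : ℂ)).re := by rw [hm]
      have h5 : (1 - s).re = 1 - s.re := by simp
      have h6 : (-(m : ℂ)).re = -(m : ℝ) := by simp
      rw [h5, h6] at h4
      have h7 : (0 : ℝ) ≤ m := Nat.cast_nonneg m
      linarith
    exact h3.comp s (by fun_prop)
  have d3 : DifferentiableAt ℂ (fun s : ℂ => cs i s) s := by
    unfold cs
    split_ifs
    · exact differentiableAt_const _
    · fun_prop
  have d4 : DifferentiableAt ℂ (fun s : ℂ => (x : ℂ) ^ s) s :=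
    differentiableAt_id.const_cpow (Or.inl hxc)
  exact ((d1.mul (d2.pow 2)).mul d3).mul d4

theorem Kc_shift_le (i : Fin 2) (k : ℕ) (σ σ' x : ℝ) (h1 : -(k : ℝ) < σ) (h2 : σ' < 1)
    (h3 : σ ≤ σ') (hx : 0 < x) : Kc i k σ x = Kc i k σ' x := by
  obtain ⟨C, hC⟩ := kap_strip i k σ σ' x h1 h2 hx
  have h := shift0 (fun s : ℂ => kap i k s * (x : ℂ) ^ s) σ σ' C (1 / 2) h3 (by norm_num)
    (fun s h4 h5 => kap_diff i k x hx s (by linarith) (by linarith)) hC
  unfold Kc
  exact congrArg _ h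

/-- T7a. the kernel does not depend on the line -/
theorem Kc_shift (i : Fin 2) (k : ℕ) (σ σ' x : ℝ) (h1 : -(k : ℝ) < σ) (h2 : σ < 1)
    (h1' : -(k : ℝ) < σ') (h2' : σ' < 1) (hx : 0 < x) : Kc i k σ x = Kc i k σ' x := by
  rcases le_total σ σ' with h | h
  · exact Kc_shift_le i k σ σ' x h1 h2' h hx
  · exact (Kc_shift_le i k σ' σ x h1' h2 h hx).symm

end Pool.Agent.H75R2.EM
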