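import Pool.Agent.H300R2.EC.Defs

/-! X8: the tail of the Euler product is close to 1. -/

namespace Pool.Agent.H75R2.ECT

open Finset Pool.Agent.H300R2.EC

theorem log_bd {x : ℝ} (hx : |x| ≤ 1 / 10) : |Real.log (1 - x) + x| ≤ 2 * x ^ 2 := by
  have h1 := Real.abs_log_sub_add_sum_range_le (x := x) (by linarith) 1
  simp only [sum_range_one, Nat.cast_zero, zero_add, pow_one, div_one] at h1
  have h2 : |x| ^ (1 + 1) / (1 - |x|) ≤ 2 * x ^ 2 := by
    rw [div_le_iff₀ (by linarith)]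
    have h3 : |x| ^ (1 + 1) = x ^ 2 := sq_abs x
    rw [h3]
    nlinarith [sq_nonneg x]
  have h4 : Real.log (1 - x) + x = x + Real.log (1 - x) := by ring
  rw [h4]
  exact h1.trans h2

theorem tele (z : ℕ) (hz : 1 ≤ z) (N : ℕ) :
    ∑ p ∈ Ioc z N, (1 : ℝ) / ((p : ℝ) * (p - 1)) ≤ 1 / z := by
  have hz0 : (0 : ℝ) < z := by exact_mod_cast hz
  rcases le_total N z with h | h
  · rw [Ioc_eq_empty (by omega), sum_empty]
    positivity
  · have key : ∀ M, z ≤ M → ∑ p ∈ Ioc z M, (1 : ℝ) / ((p : ℝ) * (p - 1)) = 1 / z - 1 / M := by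
      intro M hM
      induction M, hM using Nat.le_induction with
      | base => rw [Ioc_self, sum_empty]; ring
      | succ M hM ih =>
        have hM0 : (0 : ℝ) < M := lt_of_lt_of_le hz0 (by exact_mod_cast hM)
        rw [← insert_Ioc_right_eq_Ioc_add_one hM, sum_insert (by simp), ih]
        push_cast
        have hM1 : (M : ℝ) ≠ 0 := hM0.ne'
        have hz1 : (z : ℝ) ≠ 0 := hz0.ne'
        have hM2 : (M : ℝ) + 1 ≠ 0 := by positivity
        have e : (M : ℝ) + 1 - 1 = M := by ring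
        rw [e]
        field_simp
        ring
    rw [key N h]
    have : (0 : ℝ) ≤ 1 / N := by positivity
    linarith

theorem jac_le (D : ℤ) (p : ℕ) : |(jacobiSym D p : ℝ)| ≤ 1 := by
  rcases jacobiSym.trichotomy D p with h | h | h <;> rw [h] <;> simp

theorem tail_prod (a D : ℤ) (z N : ℕ) (w η : ℝ) (hz : 10 ≤ z)
    (hw : (((Ioc z N).filter (fun p : ℕ => p.Prime ∧ (p : ℤ) ∣ a)).card : ℝ) ≤ w)
    (hη : |Sd D z N| ≤ η) (hs : η + (w + 8) / z ≤ 1 / 2) :
    |Pd a D z N - 1| ≤ 2 * (η + (w + 8) / z) := by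
  have hz0 : (10 : ℝ) ≤ z := by exact_mod_cast hz
  have hw0 : 0 ≤ w := le_trans (Nat.cast_nonneg _) hw
  set S := (Ioc z N).filter (fun p : ℕ => p.Prime ∧ p ≠ 2 ∧ ¬ (p : ℤ) ∣ a) with hS
  set T := (Ioc z N).filter (fun p : ℕ => p.Prime ∧ p ≠ 2 ∧ (p : ℤ) ∣ a) with hT
  set x : ℕ → ℝ := fun p => (jacobiSym D p : ℝ) / (p - 1) with hx
  have hmem : ∀ p ∈ S, z < p := fun p hp => (mem_Ioc.1 (mem_filter.1 hp).1).1
  have hmemT : ∀ p ∈ T, z < p := fun p hp => (mem_Ioc.1 (mem_filter.1 hp).1).1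
  have hp11 : ∀ p : ℕ, z < p → (11 : ℝ) ≤ p ∧ (z : ℝ) ≤ p := by
    intro p hp
    constructor
    · have : 11 ≤ p := by omega
      exact_mod_cast this
    · exact_mod_cast hp.le
  have hxb : ∀ p ∈ S, |x p| ≤ 1 / (p - 1) := by
    intro p hp
    have h1 := (hp11 p (hmem p hp)).1
    rw [hx]
    show |(jacobiSym D p : ℝ) / (p - 1)| ≤ 1 / (p - 1)
    rw [abs_div, abs_of_pos (by linarith : (0 : ℝ) < p - 1)]
    exact div_le_div_of_nonneg_right (jac_le D p) (by linarith)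
  have hx10 : ∀ p ∈ S, |x p| ≤ 1 / 10 := by
    intro p hp
    have h1 := (hp11 p (hmem p hp)).1
    refine (hxb p hp).trans ?_
    exact one_div_le_one_div_of_le (by norm_num) (by linarith)
  -- the sum of squares
  have htele := tele z (by omega) N
  have hsub : ∀ U ⊆ Ioc z N, ∑ p ∈ U, (1 : ℝ) / ((p : ℝ) * (p - 1)) ≤ 1 / z := by
    intro U hU
    refine le_trans (sum_le_sum_of_subset_of_nonneg hU ?_) htele
    intro p hp _
    have h1 := (hp11 p (mem_Ioc.1 hp).1).1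
    have : (0 : ℝ) < p * (p - 1) := mul_pos (by linarith) (by linarith)
    positivity
  have hSs : S ⊆ Ioc z N := filter_subset _ _
  have hTs : T ⊆ Ioc z N := filter_subset _ _
  have hsq : ∑ p ∈ S, (2 : ℝ) * x p ^ 2 ≤ 4 / (z : ℝ) := by
    have h1 : ∑ p ∈ S, (2 : ℝ) * x p ^ 2 ≤ ∑ p ∈ S, 4 * ((1 : ℝ) / ((p : ℝ) * (p - 1))) := by
      refine sum_le_sum fun p hp => ?_
      have h2 := (hp11 p (hmem p hp)).1
      have h3 := hxb p hp
      have h4 : x p ^ 2 ≤ (1 / ((p : ℝ) - 1)) ^ 2 := by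
        rw [← sq_abs]
        exact pow_le_pow_left₀ (abs_nonneg _) h3 2
      have h5 : (1 / ((p : ℝ) - 1)) ^ 2 ≤ 2 * ((1 : ℝ) / ((p : ℝ) * (p - 1))) := by
        rw [div_pow, one_pow, mul_one_div, div_le_div_iff₀ (by nlinarith) (by nlinarith)]
        nlinarith
      linarith
    have h2 := hsub S hSs
    have h3 : ∑ p ∈ S, 4 * ((1 : ℝ) / ((p : ℝ) * (p - 1))) =
        4 * ∑ p ∈ S, (1 : ℝ) / ((p : ℝ) * (p - 1)) := (mul_sum _ _ _).symm
    rw [h3] at h1
    have h4 : 4 / (z : ℝ) = 4 * (1 / z) := by ring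
    rw [h4]
    linarith
  -- the sum of x p
  have hsplit : Sd D z N = ∑ p ∈ S, (jacobiSym D p : ℝ) / p + ∑ p ∈ T, (jacobiSym D p : ℝ) / p := by
    unfold Sd
    rw [← sum_filter_add_sum_filter_not ((Ioc z N).filter (fun p : ℕ => p.Prime ∧ p ≠ 2))
      (fun p : ℕ => ¬ (p : ℤ) ∣ a)]
    rw [filter_filter, filter_filter]
    congr 1
    · refine sum_congr ?_ fun _ _ => rfl
      rw [hS]
      refine filter_congr fun p _ => ?_
      tauto
    · refine sum_congr ?_ fun _ _ => rfl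
      rw [hT]
      refine filter_congr fun p _ => ?_
      tauto
  have hTb : |∑ p ∈ T, (jacobiSym D p : ℝ) / p| ≤ w / z := by
    refine (abs_sum_le_sum_abs _ _).trans ?_
    have h1 : ∑ p ∈ T, |(jacobiSym D p : ℝ) / p| ≤ ∑ p ∈ T, 1 / (z : ℝ) := by
      refine sum_le_sum fun p hp => ?_
      have h2 := hp11 p (hmemT p hp)
      rw [abs_div, abs_of_pos (by linarith : (0 : ℝ) < p)]
      exact div_le_div₀ (by norm_num) (jac_le D p) (by linarith) h2.2
    refine h1.trans ?_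
    rw [sum_const, nsmul_eq_mul, mul_one_div]
    have h3 : (T.card : ℝ) ≤ w := by
      refine le_trans ?_ hw
      have : T ⊆ (Ioc z N).filter (fun p : ℕ => p.Prime ∧ (p : ℤ) ∣ a) := by
        intro p hp
        rw [hT, mem_filter] at hp
        exact mem_filter.2 ⟨hp.1, hp.2.1, hp.2.2.2⟩
      exact_mod_cast card_le_card this
    exact div_le_div_of_nonneg_right h3 (by linarith)
  have hdiff : |∑ p ∈ S, x p - ∑ p ∈ S, (jacobiSym D p : ℝ) / p| ≤ 1 / z := by
    rw [← sum_sub_distrib]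
    refine (abs_sum_le_sum_abs _ _).trans (le_trans (sum_le_sum fun p hp => ?_) (hsub S hSs))
    have h2 := (hp11 p (hmem p hp)).1
    have h3 : x p - (jacobiSym D p : ℝ) / p = (jacobiSym D p : ℝ) * (1 / ((p : ℝ) * (p - 1))) := by
      rw [hx]
      show (jacobiSym D p : ℝ) / (p - 1) - (jacobiSym D p : ℝ) / p = _
      have h4 : (p : ℝ) ≠ 0 := by linarith
      have h5 : (p : ℝ) - 1 ≠ 0 := by linarith
      field_simp
      ring
    have h6 : (0 : ℝ) < p * (p - 1) := mul_pos (by linarith) (by linarith)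
    rw [h3, abs_mul, abs_of_nonneg (by positivity : (0 : ℝ) ≤ 1 / ((p : ℝ) * (p - 1)))]
    exact mul_le_of_le_one_left (by positivity) (jac_le D p)
  have hxs : |∑ p ∈ S, x p| ≤ η + w / z + 1 / z := by
    have h1 : ∑ p ∈ S, x p = Sd D z N - ∑ p ∈ T, (jacobiSym D p : ℝ) / p +
        (∑ p ∈ S, x p - ∑ p ∈ S, (jacobiSym D p : ℝ) / p) := by
      rw [hsplit]; ring
    rw [h1]
    rw [abs_le] at hη hTb hdiff ⊢
    constructor <;> linarith [hη.1, hη.2, hTb.1, hTb.2, hdiff.1, hdiff.2]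
  -- the logarithm
  have hpos : ∀ p ∈ S, 0 < 1 - x p := by
    intro p hp
    have h1 := abs_le.1 (hx10 p hp)
    linarith [h1.2]
  have hlog : Real.log (Pd a D z N) = ∑ p ∈ S, Real.log (1 - x p) := by
    unfold Pd
    exact Real.log_prod fun p hp => (hpos p hp).ne'
  have hPd : 0 < Pd a D z N := by
    unfold Pd
    exact prod_pos fun p hp => hpos p hp
  have hL : |Real.log (Pd a D z N)| ≤ η + (w + 8) / z := by
    rw [hlog]
    have h1 : ∑ p ∈ S, Real.log (1 - x p) = ∑ p ∈ S, (Real.log (1 - x p) + x p) -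
        ∑ p ∈ S, x p := by
      rw [sum_add_distrib]; ring
    have h2 : |∑ p ∈ S, (Real.log (1 - x p) + x p)| ≤ 4 / z :=
      (abs_sum_le_sum_abs _ _).trans ((sum_le_sum fun p hp => log_bd (hx10 p hp)).trans hsq)
    have h3 : η + w / z + 1 / z + 4 / z ≤ η + (w + 8) / z := by
      have h4 : η + w / z + 1 / z + 4 / z = η + (w + 5) / z := by ring
      rw [h4]
      have : (w + 5) / z ≤ (w + 8) / z := div_le_div_of_nonneg_right (by linarith) (by linarith)
      linarith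
    rw [h1]
    rw [abs_le] at hxs h2 ⊢
    constructor <;> linarith [hxs.1, hxs.2, h2.1, h2.2]
  have h1 : |Real.log (Pd a D z N)| ≤ 1 := by linarith
  have h2 := Real.abs_exp_sub_one_le h1
  rw [Real.exp_log hPd] at h2
  linarith

end Pool.Agent.H75R2.ECT
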